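import Pool.Agent.R847.QV.Vtx

/-!
# Diagonal families with split coefficients: the real closure (project QV, helper847)
-/

set_option autoImplicit false

namespace Pool.Agent.R847.QV

open Matrix Topology Filter Pool.Agent.TH729.SQ Pool.Agent.H581R2
open Pool.Agent.R847.QB

variable {n m : ℕ}

/-- the diagonal matrix -/
noncomputable def DQ (c : Fin (m + 1) → ℚ) (d : Fin (m + 1) → ℕ)
    (l : ∀ i, Fin (d i) → MvPolynomial (Fin n) ℚ) : PM n m :=
  Matrix.diagonal fun i => MvPolynomial.C (c i) * ∏ j, l i j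

theorem DQ_symm (c : Fin (m + 1) → ℚ) (d : Fin (m + 1) → ℕ)
    (l : ∀ i, Fin (d i) → MvPolynomial (Fin n) ℚ) : (DQ c d l).IsSymm :=
  Matrix.isSymm_diagonal _

theorem DQ_det {c : Fin (m + 1) → ℚ} (hc : ∀ i, c i ≠ 0) {d : Fin (m + 1) → ℕ}
    {l : ∀ i, Fin (d i) → MvPolynomial (Fin n) ℚ} (hl : ∀ i j, l i j ≠ 0) :
    (DQ c d l).det ≠ 0 := by
  unfold DQ
  rw [Matrix.det_diagonal]
  refine Finset.prod_ne_zero_iff.2 fun i _ => mul_ne_zero ?_ ?_
  · intro h
    exact hc i (MvPolynomial.C_eq_zero.1 h)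
  · exact Finset.prod_ne_zero_iff.2 fun j _ => hl i j

theorem atq_DQ (c : Fin (m + 1) → ℚ) (d : Fin (m + 1) → ℕ)
    (l : ∀ i, Fin (d i) → MvPolynomial (Fin n) ℚ) (b : Fin n → ℚ) :
    atq (DQ c d l) b = Matrix.diagonal fun i => c i * ∏ j, MvPolynomial.eval b (l i j) := by
  unfold atq DQ
  rw [Matrix.diagonal_map (map_zero _)]
  congr 1
  funext i
  simp [map_prod]

/-- the linear spaces of vertices -/
def WD (d : Fin (m + 1) → ℕ) (l : ∀ i, Fin (d i) → MvPolynomial (Fin n) ℚ)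
    (φ : ∀ i, Option (Fin (d i))) : Set (Fin (n + m) → ℚ) :=
  {x | ∀ i, (φ i).elim (fb x i = 0) fun j => MvPolynomial.eval (bs x) (l i j) = 0}

/-- the quadratic equation of a linear space -/
noncomputable def PD (d : Fin (m + 1) → ℕ) (l : ∀ i, Fin (d i) → MvPolynomial (Fin n) ℚ)
    (φ : ∀ i, Option (Fin (d i))) : MvPolynomial (Fin (n + m)) ℚ :=
  ∑ i, ((φ i).elim ((Fin.cons 1 (fun k => MvPolynomial.X (Fin.natAdd n k)) :
    Fin (m + 1) → MvPolynomial (Fin (n + m)) ℚ) i)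
      fun j => MvPolynomial.rename (Fin.castAdd m) (l i j)) ^ 2

theorem PD_deg (d : Fin (m + 1) → ℕ) (l : ∀ i, Fin (d i) → MvPolynomial (Fin n) ℚ)
    (hl : ∀ i j, (l i j).totalDegree ≤ 1) (φ : ∀ i, Option (Fin (d i))) :
    (PD d l φ).totalDegree ≤ 3 := by
  refine (MvPolynomial.totalDegree_finsetSum_le (d := 2) fun i _ => ?_).trans (by norm_num)
  refine (MvPolynomial.totalDegree_pow _ _).trans ?_
  have h1 : ((φ i).elim ((Fin.cons 1 (fun k => MvPolynomial.X (Fin.natAdd n k)) :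
      Fin (m + 1) → MvPolynomial (Fin (n + m)) ℚ) i)
      fun j => MvPolynomial.rename (Fin.castAdd m) (l i j)).totalDegree ≤ 1 := by
    rcases φ i with _ | j
    · refine Fin.cases ?_ (fun k => ?_) i
      · simp
      · simp
    · exact (MvPolynomial.totalDegree_rename_le _ _).trans (hl i j)
  omega

theorem PD_eval (d : Fin (m + 1) → ℕ) (l : ∀ i, Fin (d i) → MvPolynomial (Fin n) ℚ)
    (φ : ∀ i, Option (Fin (d i))) (x : Fin (n + m) → ℚ) :
    MvPolynomial.eval x (PD d l φ) = 0 ↔ x ∈ WD d l φ := by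
  unfold PD
  rw [map_sum]
  simp only [map_pow]
  rw [Finset.sum_eq_zero_iff_of_nonneg (fun i _ => sq_nonneg _)]
  constructor
  · intro h i
    have h1 := pow_eq_zero_iff (two_ne_zero) |>.1 (h i (Finset.mem_univ i))
    rcases hφ : φ i with _ | j
    · rw [hφ] at h1
      change MvPolynomial.eval x ((Fin.cons 1 (fun k => MvPolynomial.X (Fin.natAdd n k)) :
        Fin (m + 1) → MvPolynomial (Fin (n + m)) ℚ) i) = 0 at h1
      show fb x i = 0
      rw [← h1]
      refine Fin.cases ?_ (fun k => ?_) i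
      · simp [fb]
      · simp [fb]
    · rw [hφ] at h1
      change MvPolynomial.eval x (MvPolynomial.rename (Fin.castAdd m) (l i j)) = 0 at h1
      rw [MvPolynomial.eval_rename] at h1
      exact h1
  · intro h i _
    have h1 := h i
    rw [pow_eq_zero_iff two_ne_zero]
    rcases hφ : φ i with _ | j
    · rw [hφ] at h1
      change fb x i = 0 at h1
      change MvPolynomial.eval x ((Fin.cons 1 (fun k => MvPolynomial.X (Fin.natAdd n k)) :
        Fin (m + 1) → MvPolynomial (Fin (n + m)) ℚ) i) = 0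
      rw [← h1]
      refine Fin.cases ?_ (fun k => ?_) i
      · simp [fb]
      · simp [fb]
    · rw [hφ] at h1
      change MvPolynomial.eval x (MvPolynomial.rename (Fin.castAdd m) (l i j)) = 0
      rw [MvPolynomial.eval_rename]
      exact h1

theorem vts_DQ {c : Fin (m + 1) → ℚ} (hc : ∀ i, c i ≠ 0) (d : Fin (m + 1) → ℕ)
    (l : ∀ i, Fin (d i) → MvPolynomial (Fin n) ℚ) : vts (DQ c d l) = ⋃ φ, WD d l φ := by
  ext x
  rw [Set.mem_iUnion]
  constructor
  · intro hx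
    have hmv : atq (DQ c d l) (bs x) *ᵥ fb x = 0 := hx
    rw [atq_DQ] at hmv
    have h3 : ∀ i, ∃ o : Option (Fin (d i)), o.elim (fb x i = 0)
        fun j => MvPolynomial.eval (bs x) (l i j) = 0 := by
      intro i
      have h3 := congrFun hmv i
      rw [Matrix.mulVec_diagonal, Pi.zero_apply] at h3
      rcases mul_eq_zero.1 h3 with h4 | h4
      · have h5 := (mul_eq_zero.1 h4).resolve_left (hc i)
        obtain ⟨j, -, hj⟩ := Finset.prod_eq_zero_iff.1 h5
        exact ⟨some j, hj⟩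
      · exact ⟨none, h4⟩
    choose φ hφ using h3
    exact ⟨φ, hφ⟩
  · rintro ⟨φ, hφ⟩
    show atq (DQ c d l) (bs x) *ᵥ fb x = 0
    rw [atq_DQ]
    funext i
    rw [Matrix.mulVec_diagonal, Pi.zero_apply]
    have h2 := hφ i
    rcases hφi : φ i with _ | j
    · rw [hφi] at h2
      have h3 : fb x i = 0 := h2
      rw [h3, mul_zero]
    · rw [hφi] at h2
      have h3 : MvPolynomial.eval (bs x) (l i j) = 0 := h2
      rw [Finset.prod_eq_zero (Finset.mem_univ j) h3, mul_zero, zero_mul]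

theorem diagSA (hm : 4 ≤ m) {c : Fin (m + 1) → ℚ} (hc : ∀ i, c i ≠ 0) (d : Fin (m + 1) → ℕ)
    (l : ∀ i, Fin (d i) → MvPolynomial (Fin n) ℚ) (hl : ∀ i j, l i j ≠ 0)
    (hl1 : ∀ i j, (l i j).totalDegree ≤ 1) :
    SA (closure (rv '' pts (DQ c d l) Set.univ)) := by
  refine mainSA (DQ_symm c d l) hm (DQ_det hc hl) ?_
  rw [vts_DQ hc d l, Set.image_iUnion, closure_iUnion_of_finite]
  refine sa_iUnion fun φ => ?_
  have h1 := Pool.Agent.TH729.CC.affine_SA (algebraMap ℚ ℝ) (fun r => isAlgebraic_algebraMap r)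
    (PD d l φ) (PD_deg d l hl1 φ)
  have e : {x : Fin (n + m) → ℝ | ∃ r : Fin (n + m) → ℚ,
      MvPolynomial.eval r (PD d l φ) = 0 ∧ x = fun i => algebraMap ℚ ℝ (r i)} =
      rv '' WD d l φ := by
    ext x
    constructor
    · rintro ⟨r, hr, rfl⟩
      exact ⟨r, (PD_eval d l φ r).1 hr, rfl⟩
    · rintro ⟨r, hr, rfl⟩
      exact ⟨r, (PD_eval d l φ r).2 hr, rfl⟩
  rwa [e] at h1

theorem quad_DQ (c : Fin (m + 1) → ℚ) (d : Fin (m + 1) → ℕ)
    (l : ∀ i, Fin (d i) → MvPolynomial (Fin n) ℚ) (b : Fin n → ℚ) (v : Fin (m + 1) → ℚ) :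
    v ⬝ᵥ atq (DQ c d l) b *ᵥ v = ∑ i, c i * (∏ j, MvPolynomial.eval b (l i j)) * v i ^ 2 := by
  rw [atq_DQ, dotProduct]
  refine Finset.sum_congr rfl fun i _ => ?_
  rw [Matrix.mulVec_diagonal]
  ring

end Pool.Agent.R847.QV
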