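import Pool.Agent.R847.QB.Line
import Pool.Agent.R847.QM.Stm
import Pool.Agent.R847.QM.Lift
import Pool.Agent.Y720.MZ.Fib
import Pool.Agent.Y720.MZ.PF

/-!
# Families of quadrics with several parameters: real points outside the vertices are limits of
rational points (project QV, helper847)
-/

set_option autoImplicit false

namespace Pool.Agent.R847.QV

open Matrix Topology Filter Pool.Agent.TH729.SQ Pool.Agent.H581R2
open Pool.Agent.R847.QB
open Pool.Agent.R847.QM (S_LIFT lift_ qv)
open Pool.Agent.Y720.MZ (infinite_near' PF1)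

variable {n m : ℕ}

theorem atq_det (A : PM n m) (b : Fin n → ℚ) : (atq A b).det = MvPolynomial.eval b A.det :=
  ((MvPolynomial.eval b).map_det A).symm

theorem dense_alg : DenseRange (algebraMap ℚ ℝ) := by
  have h : (algebraMap ℚ ℝ : ℚ → ℝ) = fun q : ℚ => (q : ℝ) := by
    funext q
    exact eq_ratCast _ q
  rw [h]
  exact Rat.denseRange_cast

/-- rational parameters with nonzero discriminant are dense -/
theorem exists_good {A : PM n m} (hdet : A.det ≠ 0) {b : Fin n → ℝ} {U : Set (Fin n → ℝ)}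
    (hU : U ∈ 𝓝 b) : ∃ q : Fin n → ℚ, rv q ∈ U ∧ (atq A q).det ≠ 0 := by
  by_contra hcon
  push Not at hcon
  obtain ⟨q0, hq0⟩ := exists_rat (isOpen_interior.mem_nhds (mem_interior_iff_mem_nhds.2 hU))
  obtain ⟨q1, hq1⟩ : ∃ q : Fin n → ℚ, MvPolynomial.eval q A.det ≠ 0 := by
    by_contra hc
    push Not at hc
    apply hdet
    apply MvPolynomial.funext
    intro q
    rw [hc q, map_zero]
  have hcont : Continuous fun s : ℝ => fun i => (q0 i : ℝ) + s * ((q1 i : ℝ) - (q0 i : ℝ)) :=
    continuous_pi fun i => continuous_const.add (continuous_id.mul continuous_const)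
  have hU' : (fun s : ℝ => fun i => (q0 i : ℝ) + s * ((q1 i : ℝ) - (q0 i : ℝ))) ⁻¹' (interior U) ∈
      𝓝 (0 : ℝ) := by
    apply hcont.continuousAt.preimage_mem_nhds
    have e : (fun i => (q0 i : ℝ) + (0 : ℝ) * ((q1 i : ℝ) - (q0 i : ℝ))) = rv q0 := by
      funext i
      simp [rv]
    show interior U ∈ 𝓝 (fun i => (q0 i : ℝ) + (0 : ℝ) * ((q1 i : ℝ) - (q0 i : ℝ)))
    rw [e]
    exact isOpen_interior.mem_nhds hq0
  have hinf := infinite_near' (algebraMap ℚ ℝ) dense_alg hU'
  have hpf : PF1 fun c : ℚ => MvPolynomial.eval (fun i : Fin n =>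
      (fun (i : Fin n) (c : ℚ) => q0 i + c * (q1 i - q0 i)) i c) A.det := by
    refine PF1.eval (φ := fun (i : Fin n) (c : ℚ) => q0 i + c * (q1 i - q0 i)) ?_ A.det
    intro i
    exact (PF1.const _).add (PF1.id'.mul (PF1.const _))
  have h2 := hpf.zero (hinf.mono ?_) 1
  · apply hq1
    have e : (fun i : Fin n => q0 i + 1 * (q1 i - q0 i)) = q1 := by
      funext i
      ring
    have h3 : MvPolynomial.eval (fun i : Fin n => q0 i + 1 * (q1 i - q0 i)) A.det = 0 := h2
    rwa [e] at h3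
  · rintro c ⟨hc, -⟩
    show MvPolynomial.eval (fun i => q0 i + c * (q1 i - q0 i)) A.det = 0
    rw [← atq_det]
    apply hcon
    have e : rv (fun i => q0 i + c * (q1 i - q0 i)) =
        fun i => (q0 i : ℝ) + (algebraMap ℚ ℝ c) * ((q1 i : ℝ) - (q0 i : ℝ)) := by
      funext i
      simp [rv]
    rw [e]
    exact interior_subset hc

/-- **real points outside the vertices are limits of rational points** -/
theorem smooth_dense {A : PM n m} (hA : A.IsSymm) (hm : 4 ≤ m) (hdet : A.det ≠ 0)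
    {x : Fin (n + m) → ℝ} (h1 : fb x ⬝ᵥ atr A (bs x) *ᵥ fb x = 0)
    (h2 : atr A (bs x) *ᵥ fb x ≠ 0) : x ∈ closure (rv '' pts A Set.univ) := by
  rw [Metric.mem_closure_iff]
  intro ε hε
  have hv0 : fb x 0 = 1 := rfl
  have hcont : ContinuousAt (fun (u : Fin (m + 1) → ℝ) i => u i / u 0) (fb x) := by
    refine continuousAt_pi.2 fun i => ?_
    exact (continuous_apply i).continuousAt.div (continuous_apply 0).continuousAt (by
      rw [hv0]; exact one_ne_zero)
  have hlim : (fun i => fb x i / fb x 0) = fb x := by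
    funext i
    rw [hv0, div_one]
  have hU : {u : Fin (m + 1) → ℝ | u 0 ≠ 0 ∧ dist (fun i => u i / u 0) (fb x) < ε / 2} ∈
      𝓝 (fb x) := by
    refine inter_mem ?_ ?_
    · exact (continuous_apply 0).continuousAt.eventually_ne (by rw [hv0]; exact one_ne_zero)
    · have h3 := hcont.tendsto
      rw [hlim] at h3
      exact h3 (Metric.ball_mem_nhds (fb x) (half_pos hε))
  have h3 := lift_ ℝ (m + 1) (atr A (bs x)) (atr_symm hA _) (fb x) h1 h2 _ hU
  have h4 := (atr_continuous A).continuousAt.eventually h3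
  have h5 := h4.and (Metric.ball_mem_nhds (bs x) hε)
  obtain ⟨q, ⟨hq1, hq2⟩, hqd⟩ := exists_good hdet h5
  obtain ⟨y', ⟨hy0, hyd⟩, hyq⟩ := hq1 (atr_symm hA _)
  have hrk : 5 ≤ (atq A q).rank := by
    have hu : IsUnit (atq A q) := (Matrix.isUnit_iff_isUnit_det _).2 (isUnit_iff_ne_zero.2 hqd)
    rw [Matrix.rank_of_isUnit _ hu, Fintype.card_fin]
    omega
  have hyq' : (fun i => y' i / y' 0) ⬝ᵥ ((atq A q).map (algebraMap ℚ ℝ)) *ᵥ
      (fun i => y' i / y' 0) = 0 := by
    have e1 : (fun i => y' i / y' 0) = (y' 0)⁻¹ • y' := by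
      funext i
      simp [div_eq_inv_mul]
    rw [e1, mulVec_smul, smul_dotProduct, dotProduct_smul, ← atr_rv]
    have : y' ⬝ᵥ atr A (rv q) *ᵥ y' = 0 := hyq
    rw [this]
    simp
  obtain ⟨w, l1, l2, l3⟩ := fibre_dense deg den_ (atq A q) (atq_symm hA q) hrk
    (fun i => y' i / y' 0) (div_self hy0) hyq' (half_pos hε)
  have e1 : bs (Fin.append q fun j => w j.succ) = q := by
    funext i
    simp [bs]
  have e2 : fb (Fin.append q fun j => w j.succ) = w := by
    funext i
    refine Fin.cases ?_ (fun j => ?_) i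
    · simp [fb, l1]
    · simp [fb]
  refine ⟨rv (Fin.append q fun j => w j.succ), ⟨_, ⟨Set.mem_univ _, ?_⟩, rfl⟩, ?_⟩
  · rw [e1, e2]; exact l2
  · rw [dist_comm, dist_pi_lt_iff hε]
    intro k
    refine Fin.addCases (fun i => ?_) (fun j => ?_) k
    · have h6 : dist (rv q) (bs x) < ε := hq2
      rw [dist_pi_lt_iff hε] at h6
      simpa [rv, bs] using h6 i
    · have h6 := l3 j.succ
      rw [dist_pi_lt_iff (half_pos hε)] at hyd
      have h7 := hyd j.succ
      rw [Real.dist_eq] at h7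
      have h8 : fb x j.succ = x (Fin.natAdd n j) := by simp [fb]
      rw [h8] at h7
      rw [Real.dist_eq]
      simp only [rv, Fin.append_right]
      calc |(w j.succ : ℝ) - x (Fin.natAdd n j)|
          ≤ |(w j.succ : ℝ) - y' j.succ / y' 0| + |y' j.succ / y' 0 - x (Fin.natAdd n j)| :=
            abs_sub_le _ _ _
        _ < ε := by linarith

/-- the rational vertices -/
def vts (A : PM n m) : Set (Fin (n + m) → ℚ) := {x | atq A (bs x) *ᵥ fb x = 0}

theorem vts_real {A : PM n m} {x : Fin (n + m) → ℚ} :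
    atr A (bs (rv x)) *ᵥ fb (rv x) = 0 ↔ atq A (bs x) *ᵥ fb x = 0 := by
  rw [fb_rv, bs_rv, atr_rv, rv_mulVec]
  constructor
  · intro h
    exact rv_inj (h.trans rv_zero.symm)
  · intro h
    rw [h, rv_zero]

/-- **the closure** -/
theorem closure_eq {A : PM n m} (hA : A.IsSymm) (hm : 4 ≤ m) (hdet : A.det ≠ 0) :
    closure (rv '' pts A Set.univ) =
      closure {x : Fin (n + m) → ℝ | fb x ⬝ᵥ atr A (bs x) *ᵥ fb x = 0 ∧
        ¬ ∀ i, (atr A (bs x) *ᵥ fb x) i = 0} ∪ closure (rv '' vts A) := by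
  apply subset_antisymm
  · rw [← closure_union]
    refine closure_mono ?_
    rintro _ ⟨x, hx, rfl⟩
    by_cases h : atq A (bs x) *ᵥ fb x = 0
    · exact Or.inr ⟨x, h, rfl⟩
    · left
      refine ⟨real_of_pts hx, ?_⟩
      intro hc
      exact h (vts_real.1 (funext hc))
  · refine Set.union_subset ?_ ?_
    · refine closure_minimal ?_ isClosed_closure
      rintro x ⟨h1, h2⟩
      refine smooth_dense hA hm hdet h1 ?_
      intro h
      exact h2 fun i => congrFun h i
    · refine closure_mono (Set.image_mono ?_)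
      intro x hx
      have h : atq A (bs x) *ᵥ fb x = 0 := hx
      exact ⟨Set.mem_univ _, by rw [h, dotProduct_zero]⟩

theorem sap_vert (A : PM n m) :
    SAP fun x : Fin (n + m) → ℝ => ¬ ∀ i, (atr A (bs x) *ᵥ fb x) i = 0 := by
  refine SAP.not (SAP.forall_fin fun i => SAP.eq_zero ?_)
  simp only [dotProduct, mulVec]
  refine PF.sum _ fun j _ => PF.mul ?_ (pf_fb j)
  exact pf_atr A i j (φ := fun x : Fin (n + m) → ℝ => bs x) fun k => PF.coord _

theorem mainSA {A : PM n m} (hA : A.IsSymm) (hm : 4 ≤ m) (hdet : A.det ≠ 0)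
    (h : SA (closure (rv '' vts A))) : SA (closure (rv '' pts A Set.univ)) := by
  rw [closure_eq hA hm hdet]
  exact SA.union (SA.closure (SAP.and (sap_quad A) (sap_vert A))) h

theorem finiteSA {A : PM n m} (hA : A.IsSymm) (hm : 4 ≤ m) (hdet : A.det ≠ 0)
    (h : (vts A).Finite) : SA (closure (rv '' pts A Set.univ)) := by
  refine mainSA hA hm hdet ?_
  rw [(h.image rv).isClosed.closure_eq]
  have h1 := SA.finite_rat h
  refine SAP.congr h1 fun x => ?_
  constructor
  · rintro ⟨b, hb, rfl⟩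
    exact ⟨b, hb, fun i => rfl⟩
  · rintro ⟨b, hb, hx⟩
    exact ⟨b, hb, (funext hx).symm⟩

end Pool.Agent.R847.QV
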